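import Pool.Agent.Helper87.MD.Goals

/-!
# LAT: the lattice lemma
-/

set_option autoImplicit false

open Finset

namespace Pool.Agent.Helper60.MD

open Pool.Agent.Helper87.MD Pool.Agent.Helper98.Lang
open scoped Classical

theorem nd_le (x : ℝ) (m : ℤ) : nd x ≤ |x - m| := round_le x m

theorem nd_neg (x : ℝ) : nd (-x) = nd x := by
  have h : ∀ x : ℝ, nd (-x) ≤ nd x := fun x => by
    refine (nd_le (-x) (-round x)).trans (le_of_eq ?_)
    unfold nd
    push_cast
    rw [← abs_neg]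
    congr 1
    ring
  exact le_antisymm (h x) (by simpa using h (-x))

/-- A set of naturals in `[1, X]` with distances at least `D`. -/
theorem sep (T : Finset ℕ) (X : ℕ) (D : ℝ) (hD : 0 < D) (hT : ∀ x ∈ T, x ≤ X)
    (h : ∀ x ∈ T, ∀ y ∈ T, x < y → D ≤ (y : ℝ) - x) : (T.card : ℝ) ≤ 1 + X / D := by
  have h1 : T.card ≤ (range (⌊(X : ℝ) / D⌋₊ + 1)).card := by
    refine card_le_card_of_injOn (fun x => ⌊(x : ℝ) / D⌋₊) (fun x hx => ?_) ?_
    · rw [coe_range, Set.mem_Iio]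
      refine Nat.lt_succ_of_le (Nat.floor_le_floor ?_)
      have : (x : ℝ) ≤ X := by exact_mod_cast hT x hx
      exact div_le_div_of_nonneg_right this hD.le
    · have key : ∀ x ∈ T, ∀ y ∈ T, x < y → ⌊(x : ℝ) / D⌋₊ ≠ ⌊(y : ℝ) / D⌋₊ := by
        intro x hx y hy hxy he
        have h2 := h x hx y hy hxy
        have h3 : (x : ℝ) / D + 1 ≤ (y : ℝ) / D := by
          rw [div_add_one hD.ne', div_le_div_iff_of_pos_right hD]
          linarith
        have h4 : ((⌊(x : ℝ) / D⌋₊ + 1 : ℕ) : ℝ) ≤ (y : ℝ) / D := by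
          push_cast
          have := Nat.floor_le (div_nonneg (Nat.cast_nonneg x) hD.le : (0 : ℝ) ≤ (x : ℝ) / D)
          linarith
        have h5 := Nat.le_floor h4
        omega
      intro x hx y hy he
      rcases lt_trichotomy x y with h2 | h2 | h2
      · exact absurd he (key x hx y hy h2)
      · exact h2
      · exact absurd he.symm (key y hy x hx h2)
  rw [card_range] at h1
  have h2 : ((⌊(X : ℝ) / D⌋₊ + 1 : ℕ) : ℝ) ≤ 1 + X / D := by
    push_cast
    have := Nat.floor_le (div_nonneg (Nat.cast_nonneg X) hD.le : (0 : ℝ) ≤ (X : ℝ) / D)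
    linarith
  exact le_trans (by exact_mod_cast h1) h2

theorem core (θ : ℝ) (X w : ℕ) (η ρ : ℝ) (W : ℤ) (hρ : 0 < ρ) (hρη : ρ ≤ 2 * η) (hw : 1 ≤ w)
    (hW : (w : ℝ) * θ = W + ρ) (hmin : ∀ u : ℕ, 1 ≤ u → nd ((u : ℝ) * θ) ≤ 2 * η → w ≤ u) :
    (((Icc 1 X).filter (fun x : ℕ => nd ((x : ℝ) * θ) ≤ η)).card : ℝ) ≤
      (2 + 2 * ρ * X) * (1 + min (2 * η / ρ) (X / w)) := by
  have hη : 0 < η := by linarith
  set A := (Icc 1 X).filter (fun x : ℕ => nd ((x : ℝ) * θ) ≤ η) with hA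
  set T1 := (Icc 1 X).filter (fun x : ℕ => nd ((x : ℝ) * θ) ≤ η ∧ x ≤ w) with hT1
  set T2 := (Icc 1 X).filter (fun x : ℕ => ∃ (m : ℤ) (t : ℝ), (x : ℝ) * θ = m + t ∧ -η ≤ t ∧
    t < -η + ρ) with hT2
  set K := ⌊min (2 * η / ρ) ((X : ℝ) / w)⌋₊ with hK
  have hw0 : (0 : ℝ) < w := by exact_mod_cast hw
  -- the descent
  have hdesc : ∀ x : ℕ, 1 ≤ x → x ≤ X → ∀ (m : ℤ) (t : ℝ), (x : ℝ) * θ = m + t → |t| ≤ η →
      ∃ x0 k : ℕ, x = x0 + k * w ∧ (k : ℝ) * ρ ≤ t + η ∧ x0 ∈ T1 ∪ T2 := by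
    intro x
    induction x using Nat.strong_induction_on with
    | _ x ih =>
      intro hx1 hxX m t hxt ht
      have ht' := abs_le.1 ht
      by_cases h1 : x ≤ w
      · refine ⟨x, 0, by simp, by simpa using by linarith, ?_⟩
        rw [mem_union]
        left
        rw [hT1, mem_filter, mem_Icc]
        refine ⟨⟨hx1, hxX⟩, (nd_le _ m).trans ?_, h1⟩
        rw [hxt]
        simpa using ht
      · by_cases h2 : t < -η + ρ
        · refine ⟨x, 0, by simp, by simpa using by linarith, ?_⟩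
          rw [mem_union]
          right
          rw [hT2, mem_filter, mem_Icc]
          exact ⟨⟨hx1, hxX⟩, m, t, hxt, ht'.1, h2⟩
        · push Not at h1 h2
          obtain ⟨x0, k, e1, e2, e3⟩ := ih (x - w) (by omega) (by omega) (by omega) (m - W) (t - ρ)
            (by
              rw [Nat.cast_sub h1.le, sub_mul, hxt, hW]
              push_cast
              ring) (abs_le.2 ⟨by linarith, by linarith⟩)
          refine ⟨x0, k + 1, ?_, ?_, e3⟩
          · rw [add_mul, one_mul, ← add_assoc, ← e1]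
            omega
          · push_cast
            linarith
  have hcov : A ⊆ ((T1 ∪ T2) ×ˢ range (K + 1)).image (fun p => p.1 + p.2 * w) := by
    intro x hx
    rw [hA, mem_filter, mem_Icc] at hx
    obtain ⟨x0, k, e1, e2, e3⟩ := hdesc x hx.1.1 hx.1.2 (round ((x : ℝ) * θ))
      ((x : ℝ) * θ - round ((x : ℝ) * θ)) (by ring) hx.2
    rw [mem_image]
    refine ⟨(x0, k), mem_product.2 ⟨e3, mem_range.2 (Nat.lt_succ_of_le ?_)⟩, e1.symm⟩
    refine Nat.le_floor (le_min ?_ ?_)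
    · rw [le_div_iff₀ hρ]
      have := (abs_le.1 (hx.2 : |(x : ℝ) * θ - round ((x : ℝ) * θ)| ≤ η)).2
      linarith
    · rw [le_div_iff₀ hw0]
      have : k * w ≤ X := by omega
      exact_mod_cast this
  have hc1 : T1.card ≤ 1 := by
    rw [card_le_one]
    have key : ∀ x ∈ T1, ∀ y ∈ T1, ¬ x < y := by
      intro x hx y hy hxy
      rw [hT1, mem_filter, mem_Icc] at hx hy
      have h1 := hmin (y - x) (by omega) (by
        refine (nd_le _ (round ((y : ℝ) * θ) - round ((x : ℝ) * θ))).trans ?_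
        rw [Nat.cast_sub hxy.le]
        push_cast
        have h2 := abs_le.1 (hx.2.1 : |(x : ℝ) * θ - round ((x : ℝ) * θ)| ≤ η)
        have h3 := abs_le.1 (hy.2.1 : |(y : ℝ) * θ - round ((y : ℝ) * θ)| ≤ η)
        refine abs_le.2 ⟨?_, ?_⟩ <;> linarith)
      omega
    intro x hx y hy
    rcases lt_trichotomy x y with h | h | h
    · exact absurd h (key x hx y hy)
    · exact h
    · exact absurd h (key y hy x hx)
  have hc2 : (T2.card : ℝ) ≤ 1 + 2 * ρ * X := by
    have h := sep T2 X (1 / (2 * ρ)) (by positivity)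
      (fun x hx => by rw [hT2, mem_filter, mem_Icc] at hx; exact hx.1.2) (by
      intro x hx y hy hxy
      rw [hT2, mem_filter, mem_Icc] at hx hy
      obtain ⟨-, m, t, e1, e2, e3⟩ := hx
      obtain ⟨-, m', t', e1', e2', e3'⟩ := hy
      have hu : ((y - x : ℕ) : ℝ) = (y : ℝ) - x := by rw [Nat.cast_sub hxy.le]
      have hτ : |t' - t| < ρ := abs_lt.2 ⟨by linarith, by linarith⟩
      have hnu : nd (((y - x : ℕ) : ℝ) * θ) ≤ |t' - t| := by
        refine (nd_le _ (m' - m)).trans (le_of_eq ?_)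
        rw [hu]
        push_cast
        congr 1
        linarith
      have hwu : w ≤ y - x := hmin (y - x) (by omega) (by linarith)
      have hwu' : (w : ℝ) ≤ (y : ℝ) - x := by
        rw [← hu]
        exact_mod_cast hwu
      -- the integer
      have hint : ((w : ℝ) * (t' - t) - ((y : ℝ) - x) * ρ) =
          (((y - x : ℕ) : ℤ) * W - (w : ℤ) * (m' - m) : ℤ) := by
        push_cast
        rw [hu]
        have e4 : ((y : ℝ) - x) * θ = (m' - m : ℝ) + (t' - t) := by linarith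
        have e5 : (w : ℝ) * (((y : ℝ) - x) * θ) = ((y : ℝ) - x) * ((w : ℝ) * θ) := by ring
        rw [e4, hW] at e5
        linarith
      have h1 : |(w : ℝ) * (t' - t)| < ((y : ℝ) - x) * ρ := by
        rw [abs_mul, abs_of_pos hw0]
        calc (w : ℝ) * |t' - t| < w * ρ := mul_lt_mul_of_pos_left hτ hw0
          _ ≤ ((y : ℝ) - x) * ρ := mul_le_mul_of_nonneg_right hwu' hρ.le
      have h1' := abs_lt.1 h1
      set z : ℤ := ((y - x : ℕ) : ℤ) * W - (w : ℤ) * (m' - m) with hz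
      have h2 : (z : ℝ) < 0 := by rw [← hint]; linarith
      have h3 : z < 0 := by exact_mod_cast h2
      have h4 : z ≤ -1 := by omega
      have h5 : (z : ℝ) ≤ -1 := by exact_mod_cast h4
      rw [← hint] at h5
      rw [div_le_iff₀ (by positivity)]
      linarith)
    have : (X : ℝ) / (1 / (2 * ρ)) = 2 * ρ * X := by
      rw [div_div_eq_mul_div, div_one]
      ring
    rwa [this] at h
  have hcard : A.card ≤ (T1 ∪ T2).card * (K + 1) := by
    refine (card_le_card hcov).trans (card_image_le.trans ?_)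
    rw [card_product, card_range]
  have hKr : (K : ℝ) ≤ min (2 * η / ρ) ((X : ℝ) / w) := Nat.floor_le (by positivity)
  have hU : ((T1 ∪ T2).card : ℝ) ≤ 2 + 2 * ρ * X := by
    have h1 : ((T1 ∪ T2).card : ℝ) ≤ T1.card + T2.card := by exact_mod_cast card_union_le _ _
    have h2 : (T1.card : ℝ) ≤ 1 := by exact_mod_cast hc1
    linarith
  calc (A.card : ℝ) ≤ ((T1 ∪ T2).card : ℝ) * (K + 1) := by exact_mod_cast hcard
    _ ≤ (2 + 2 * ρ * X) * (1 + min (2 * η / ρ) (X / w)) := by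
      refine mul_le_mul hU (by linarith) (by positivity) (by positivity)

theorem lat : LatStmt := by
  intro ξ hξ δ hδ
  obtain ⟨c₁, hc₁, hroth⟩ := hξ δ hδ
  refine ⟨8 + 2 * √(2 / c₁) + 2 / √c₁, by positivity, ?_⟩
  intro s X η hs hX hη
  set A := (Icc 1 X).filter (fun x : ℕ => nd ((x : ℝ) * (s * ξ)) ≤ η) with hA
  have hs0 : (0 : ℝ) < s := by exact_mod_cast hs
  have hX0 : (0 : ℝ) < X := by exact_mod_cast hX
  set Z := η * ((s : ℝ) * X) ^ (1 + δ) with hZ
  have hZ0 : 0 < Z := by positivity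
  have hsq : Z ^ ((1 : ℝ) / 2) = √Z := (Real.sqrt_eq_rpow Z).symm
  rw [hsq]
  rcases A.eq_empty_or_nonempty with he | ⟨x₁, hx₁⟩
  · rw [he, card_empty, Nat.cast_zero]
    positivity
  · have hx₁' := hx₁
    rw [hA, mem_filter, mem_Icc] at hx₁'
    -- Roth for multiples of `s`
    have hr : ∀ n : ℕ, 1 ≤ n → c₁ * ((n : ℝ) * s) ^ (-(1 + δ)) ≤ nd ((n : ℝ) * (s * ξ)) := by
      intro n hn
      have h := hroth (n * s) (Nat.mul_pos hn hs)
      push_cast at h
      rwa [mul_assoc (n : ℝ) (s : ℝ) ξ] at h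
    have hex : ∃ w : ℕ, 1 ≤ w ∧ nd ((w : ℝ) * (s * ξ)) ≤ 2 * η :=
      ⟨x₁, hx₁'.1.1, by linarith [hx₁'.2]⟩
    set w := Nat.find hex with hwdef
    obtain ⟨hw1, hw2⟩ := Nat.find_spec hex
    have hwmin : ∀ u : ℕ, 1 ≤ u → nd ((u : ℝ) * (s * ξ)) ≤ 2 * η → w ≤ u :=
      fun u h1 h2 => Nat.find_min' hex ⟨h1, h2⟩
    have hwX : w ≤ X := (hwmin x₁ hx₁'.1.1 (by linarith [hx₁'.2])).trans hx₁'.1.2
    have hw0 : (0 : ℝ) < w := by exact_mod_cast hw1
    have hwXr : (w : ℝ) ≤ X := by exact_mod_cast hwX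
    set ρ := nd ((w : ℝ) * (s * ξ)) with hρdef
    have hρ1 := hr w hw1
    have hρ0 : 0 < ρ := lt_of_lt_of_le (by positivity) hρ1
    have hmain : (A.card : ℝ) ≤ (2 + 2 * ρ * X) * (1 + min (2 * η / ρ) (X / w)) := by
      rcases le_total 0 ((w : ℝ) * (s * ξ) - round ((w : ℝ) * (s * ξ))) with h | h
      · refine core (s * ξ) X w η ρ (round ((w : ℝ) * (s * ξ))) hρ0 hw2 hw1 ?_ hwmin
        rw [hρdef]
        unfold nd
        rw [abs_of_nonneg h]
        ring
      · have h1 := core (-(s * ξ)) X w η ρ (-round ((w : ℝ) * (s * ξ))) hρ0 hw2 hw1 (by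
          rw [hρdef]
          unfold nd
          rw [abs_of_nonpos h]
          push_cast
          ring) (fun u hu h2 => hwmin u hu (by rwa [mul_neg, nd_neg] at h2))
        have h2 : (Icc 1 X).filter (fun x : ℕ => nd ((x : ℝ) * -(s * ξ)) ≤ η) = A := by
          rw [hA]
          refine filter_congr fun x _ => ?_
          rw [mul_neg, nd_neg]
        rwa [h2] at h1
    set μ := min (2 * η / ρ) ((X : ℝ) / w) with hμ
    have hμ0 : 0 ≤ μ := by positivity
    have hμ1 : ρ * μ ≤ 2 * η := by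
      calc ρ * μ ≤ ρ * (2 * η / ρ) := mul_le_mul_of_nonneg_left (min_le_left _ _) hρ0.le
        _ = 2 * η := by field_simp
    have hμ2 : μ ^ 2 ≤ (2 / c₁) * Z := by
      have h1 : μ ^ 2 ≤ (2 * η / ρ) * ((X : ℝ) / w) := by
        rw [pow_two]
        exact mul_le_mul (min_le_left _ _) (min_le_right _ _) hμ0 (by positivity)
      have h2 : c₁ ≤ ρ * ((w : ℝ) * s) ^ (1 + δ) := by
        have h3 := mul_le_mul_of_nonneg_right hρ1
          (by positivity : (0 : ℝ) ≤ ((w : ℝ) * s) ^ (1 + δ))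
        rwa [mul_assoc, ← Real.rpow_add (by positivity), neg_add_cancel, Real.rpow_zero,
          mul_one] at h3
      have h4 : ((w : ℝ) * s) ^ (1 + δ) * X ≤ w * ((s : ℝ) * X) ^ (1 + δ) := by
        rw [Real.mul_rpow hw0.le hs0.le, Real.mul_rpow hs0.le hX0.le]
        have h5 : (w : ℝ) ^ (1 + δ) = w * (w : ℝ) ^ δ := by
          rw [Real.rpow_add hw0, Real.rpow_one]
        have h6 : (X : ℝ) ^ (1 + δ) = X * (X : ℝ) ^ δ := by
          rw [Real.rpow_add hX0, Real.rpow_one]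
        rw [h5, h6]
        have h7 : (w : ℝ) ^ δ ≤ (X : ℝ) ^ δ := Real.rpow_le_rpow hw0.le hwXr hδ.le
        have h8 : (0 : ℝ) < (s : ℝ) ^ (1 + δ) := by positivity
        calc w * (w : ℝ) ^ δ * (s : ℝ) ^ (1 + δ) * X
            = (w * (s : ℝ) ^ (1 + δ) * X) * (w : ℝ) ^ δ := by ring
          _ ≤ (w * (s : ℝ) ^ (1 + δ) * X) * (X : ℝ) ^ δ :=
            mul_le_mul_of_nonneg_left h7 (by positivity)
          _ = w * ((s : ℝ) ^ (1 + δ) * (X * (X : ℝ) ^ δ)) := by ring
      refine h1.trans ?_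
      rw [div_mul_div_comm, div_mul_eq_mul_div, div_le_div_iff₀ (by positivity) hc₁, hZ]
      calc 2 * η * X * c₁ ≤ 2 * η * X * (ρ * ((w : ℝ) * s) ^ (1 + δ)) :=
            mul_le_mul_of_nonneg_left h2 (by positivity)
        _ = 2 * η * ρ * (((w : ℝ) * s) ^ (1 + δ) * X) := by ring
        _ ≤ 2 * η * ρ * (w * ((s : ℝ) * X) ^ (1 + δ)) :=
            mul_le_mul_of_nonneg_left h4 (by positivity)
        _ = 2 * (η * ((s : ℝ) * X) ^ (1 + δ)) * (ρ * w) := by ring
    have hμ3 : μ ≤ √(2 / c₁) * √Z := by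
      rw [← Real.sqrt_mul (by positivity)]
      exact Real.le_sqrt_of_sq_le hμ2
    have hone : 1 ≤ 1 / √c₁ * √Z := by
      have h1 : c₁ ≤ Z := by
        have h2 := hr x₁ hx₁'.1.1
        have hx0 : (0 : ℝ) < x₁ := by exact_mod_cast hx₁'.1.1
        have hxX : (x₁ : ℝ) ≤ X := by exact_mod_cast hx₁'.1.2
        have h3 : c₁ * ((x₁ : ℝ) * s) ^ (-(1 + δ)) ≤ η := h2.trans hx₁'.2
        have h4 := mul_le_mul_of_nonneg_right h3
          (by positivity : (0 : ℝ) ≤ ((x₁ : ℝ) * s) ^ (1 + δ))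
        rw [mul_assoc, ← Real.rpow_add (by positivity), neg_add_cancel, Real.rpow_zero,
          mul_one] at h4
        refine h4.trans ?_
        rw [hZ]
        refine mul_le_mul_of_nonneg_left ?_ hη.le
        refine Real.rpow_le_rpow (by positivity) ?_ (by positivity)
        rw [mul_comm]
        exact mul_le_mul_of_nonneg_left hxX hs0.le
      rw [div_mul_eq_mul_div, one_mul, le_div_iff₀ (by positivity), one_mul]
      exact Real.sqrt_le_sqrt h1
    have hρX : ρ * X ≤ 2 * η * X := mul_le_mul_of_nonneg_right hw2 hX0.le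
    have hρXμ : ρ * μ * X ≤ 2 * η * X := mul_le_mul_of_nonneg_right hμ1 hX0.le
    have hηX : 0 ≤ η * X := by positivity
    have hsZ : 0 ≤ √Z := Real.sqrt_nonneg _
    calc (A.card : ℝ) ≤ (2 + 2 * ρ * X) * (1 + μ) := hmain
      _ = 2 + 2 * μ + 2 * (ρ * X) + 2 * (ρ * μ * X) := by ring
      _ ≤ 2 * (1 / √c₁ * √Z) + 2 * (√(2 / c₁) * √Z) + 8 * (η * X) := by linarith
      _ ≤ (8 + 2 * √(2 / c₁) + 2 / √c₁) * (η * X + √Z) := by
        have e1 : (8 + 2 * √(2 / c₁) + 2 / √c₁) * (η * X + √Z) =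
          (2 * (1 / √c₁ * √Z) + 2 * (√(2 / c₁) * √Z) + 8 * (η * X)) +
            (8 * √Z + (2 * √(2 / c₁) + 2 / √c₁) * (η * X)) := by ring
        rw [e1]
        have : 0 ≤ 8 * √Z + (2 * √(2 / c₁) + 2 / √c₁) * (η * X) := by positivity
        linarith

end Pool.Agent.Helper60.MD
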